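import Pool.Agent.H88.AQ.Iface

/-!
# [H1 AQ DG] `Dg3Stmt` from `Los3Stmt` and `OdStmt` (AQ, W2#, MP_b39724)
-/

set_option autoImplicit false

open scoped NumberField
open H88.A4 Pool.Agent.H67.WA H88.WS H88.AQ

noncomputable section

namespace H1.AQ

theorem dg3_of (k M : Type) [Field k] [NumberField k] [Field M] [NumberField M] [Algebra k M]
    (h : Los3Stmt k M) (h3 : OdStmt M) : Dg3Stmt k M := by
  classical
  intro τ hτ m0 hm0 C hC A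
  have hC0 : 0 < C := by linarith
  obtain ⟨C3, κ0, hC3, hκ0, hD⟩ := h3 (3 / 4) (by norm_num) (by norm_num) C hC
  obtain ⟨C0, hC0', hlos⟩ := h τ hτ m0 hm0 C hC A (κ0 / 2) (by linarith)
  refine ⟨C0 * C3, κ0 / 2, by positivity, by linarith, ?_⟩
  intro s ρ1 ρ2 hs hρ hρs S hS
  have hs0 : 0 < s := by linarith
  have hCs : 1 ≤ C * s := one_le_mul_of_one_le_of_one_le hC hs
  obtain ⟨T, hT⟩ : ∃ T : Finset (T3 M), T = S.image fun x => tb x.2 := ⟨_, rfl⟩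
  have h1 := hlos s ρ1 ρ2 hCs hρ S T fun x hx => ⟨(hS x hx).1, by
    rw [hT]
    exact Finset.mem_image_of_mem _ hx⟩
  have hρ100 : s ^ (-(1 / 100) : ℝ) ≤ ρ1 :=
    (Real.rpow_le_rpow_of_exponent_le hs (by norm_num)).trans hρs
  have h2 := hD s ρ1 ρ2 hs hρ hρ100 T (by
    intro b hb
    rw [hT] at hb
    obtain ⟨x, hx, rfl⟩ := Finset.mem_image.1 hb
    obtain ⟨⟨-, hm, -, -⟩, h5⟩ := hS x hx
    refine ⟨⟨hm.1.sb1, hm.1.sb2, hm.1.sb3⟩, hm.2.2.1, hm.2.2.2.1, ?_⟩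
    unfold Ndg at h5
    rw [not_and_or] at h5
    rcases h5 with h5 | h5
    · push Not at h5
      obtain ⟨φ, hφ⟩ := h5
      exact Or.inl ⟨φ, hφ.le⟩
    · exact Or.inr (not_le.1 h5).le)
  have h6 : 0 ≤ s ^ (κ0 / 2) := Real.rpow_nonneg hs0.le _
  calc (S.card : ℝ) ≤ C0 * s ^ (κ0 / 2) * ∑ b ∈ T, ni (cn b) * Wt (3 / 4) s b := h1
    _ ≤ C0 * s ^ (κ0 / 2) * (C3 * s ^ (3 * (Module.finrank ℚ M : ℝ) - κ0)) :=
        mul_le_mul_of_nonneg_left h2 (by positivity)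
    _ = C0 * C3 * (s ^ (κ0 / 2) * s ^ (3 * (Module.finrank ℚ M : ℝ) - κ0)) := by ring
    _ = C0 * C3 * (s ^ (3 * Module.finrank ℚ M) * s ^ (-(κ0 / 2))) := by
        congr 1
        rw [← Real.rpow_natCast, ← Real.rpow_add hs0, ← Real.rpow_add hs0]
        congr 1
        push_cast
        ring
    _ = C0 * C3 * s ^ (3 * Module.finrank ℚ M) * s ^ (-(κ0 / 2)) := by ring

end H1.AQ
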